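import Pool.Agent.P8H96.FP.RetractCore
import Pool.Agent.Y72.Ty.Main

/-!
# A retract of a group of type `FP_n` is of type `FP_n`
-/

set_option autoImplicit false

namespace Pool.Agent.P8H96.FP

open Pool.Agent.Y72.Ty

theorem triv_smul {G H : Type} [Group G] [Group H] (i : G →* H) (r : MonoidAlgebra ℤ G) (m : ℤ) :
    (Representation.trivial ℤ G ℤ).asModuleEquiv
      (r • (Representation.trivial ℤ G ℤ).asModuleEquiv.symm m) =
    (Representation.trivial ℤ H ℤ).asModuleEquiv
      (MonoidAlgebra.mapDomainRingHom ℤ i r •
        (Representation.trivial ℤ H ℤ).asModuleEquiv.symm m) := by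
  induction r using MonoidAlgebra.induction_on with
  | of g =>
    rw [MonoidAlgebra.of_apply, Representation.single_smul, LinearEquiv.apply_symm_apply, one_smul]
    rw [MonoidAlgebra.mapDomainRingHom_apply, MonoidAlgebra.mapDomain_single,
      Representation.single_smul, LinearEquiv.apply_symm_apply, one_smul]
    rfl
  | add a b ha hb =>
    rw [add_smul, map_add, ha, hb, map_add, add_smul, map_add]
  | smul c a ha =>
    rw [smul_assoc, map_zsmul, ha, map_zsmul, smul_assoc, map_zsmul]

/-- A retract of a group of type `FP_n` is of type `FP_n`. -/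
theorem typeFP_retract {G H : Type} [Group G] [Group H] (i : G →* H) (ρ : H →* G)
    (h : ρ.comp i = MonoidHom.id G) (n : ℕ) (hH : TypeFP H n) : TypeFP G n := by
  unfold TypeFP at hH ⊢
  refine fp_retract_gen (MonoidAlgebra.mapDomainRingHom ℤ i) (MonoidAlgebra.mapDomainRingHom ℤ ρ)
    ?_ n (Representation.trivial ℤ G ℤ).asModule (Representation.trivial ℤ H ℤ).asModule PUnit
    inferInstance inferInstance
    ((Representation.trivial ℤ H ℤ).asModuleEquiv.symm.toLinearMap.comp
      (Representation.trivial ℤ G ℤ).asModuleEquiv.toLinearMap).toAddMonoidHom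
    ((Representation.trivial ℤ G ℤ).asModuleEquiv.symm.toLinearMap.comp
      (Representation.trivial ℤ H ℤ).asModuleEquiv.toLinearMap).toAddMonoidHom ?_ ?_ 0 0 ?_ hH
  · intro r
    induction r using MonoidAlgebra.induction_on with
    | of g =>
      rw [MonoidAlgebra.of_apply, MonoidAlgebra.mapDomainRingHom_apply,
        MonoidAlgebra.mapDomainRingHom_apply,
        MonoidAlgebra.mapDomain_single, MonoidAlgebra.mapDomain_single]
      have := congrArg (fun f : G →* G => f g) h
      exact congrArg (fun x => MonoidAlgebra.single x (1 : ℤ)) this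
    | add a b ha hb => rw [map_add, map_add, ha, hb]
    | smul c a ha => rw [map_zsmul, map_zsmul, ha]
  · intro r m
    obtain ⟨m, rfl⟩ := (Representation.trivial ℤ G ℤ).asModuleEquiv.symm.surjective m
    have h1 := triv_smul i r m
    apply (Representation.trivial ℤ H ℤ).asModuleEquiv.injective
    exact h1
  · intro s m
    obtain ⟨m, rfl⟩ := (Representation.trivial ℤ H ℤ).asModuleEquiv.symm.surjective m
    have h1 := triv_smul ρ s m
    apply (Representation.trivial ℤ G ℤ).asModuleEquiv.injective
    exact h1
  · intro m
    change m - m = 0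
    exact sub_self m

end Pool.Agent.P8H96.FP
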