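import Pool.Agent.P8H96.FP.PermCore
import Pool.Agent.Y72.Ty.Main

/-!
# Permutation complexes and groups of type `FP_n`
-/

set_option autoImplicit false

namespace Pool.Agent.P8H96.FP

open Pool.Agent.Y72.Ty

/-- A group acting freely on the sets `X k`, with finitely many orbits for `k ≤ n`, with an
equivariant augmented chain complex on the `ℤ X_k` which is exact below degree `n`, is of type
`FP_n`. -/
theorem typeFP_of_perm {H : Type} [Group H] (n : ℕ) (X : ℕ → Type) [∀ k, MulAction H (X k)]
    (hfree : ∀ k (h : H) (x : X k), h • x = x → h = 1)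
    (hfin : ∀ k, k ≤ n → ∃ s : Set (X k), s.Finite ∧ ∀ x, ∃ y ∈ s, ∃ h : H, h • y = x)
    (hne : Nonempty (X 0)) (d : ∀ k, (X (k+1) →₀ ℤ) →ₗ[ℤ] (X k →₀ ℤ))
    (heq : ∀ k (h : H) (x : X (k+1)), d k (Finsupp.single (h • x) 1) =
      Finsupp.mapDomain (h • ·) (d k (Finsupp.single x 1)))
    (haug : ∀ x, (d 0 (Finsupp.single x 1)).sum (fun _ a => a) = 0)
    (hdd : ∀ k z, d k (d (k+1) z) = 0)
    (hex0 : 0 < n → ∀ z : X 0 →₀ ℤ, z.sum (fun _ a => a) = 0 → ∃ y, d 0 y = z)
    (hex : ∀ k, k + 1 < n → ∀ z, d k z = 0 → ∃ y, d (k+1) y = z) : TypeFP H n := by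
  unfold TypeFP
  -- the augmentation
  let e0 : (X 0 →₀ ℤ) →+ (Representation.trivial ℤ H ℤ).asModule :=
    { toFun := fun z => (Representation.trivial ℤ H ℤ).asModuleEquiv.symm (z.sum (fun _ a => a))
      map_zero' := by simp
      map_add' := by
        intro a b
        rw [Finsupp.sum_add_index' (fun _ => rfl) (fun _ _ _ => rfl), map_add] }
  have he0 : ∀ z, e0 z =
      (Representation.trivial ℤ H ℤ).asModuleEquiv.symm (z.sum (fun _ a => a)) := fun z => rfl
  have he0s : ∀ (x : X 0) (c : ℤ), e0 (Finsupp.single x c) =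
      (Representation.trivial ℤ H ℤ).asModuleEquiv.symm c := by
    intro x c
    rw [he0, Finsupp.sum_single_index rfl]
  have hε : ∀ h v, e0 (prm H (X 0) h v) = MonoidAlgebra.single h (1 : ℤ) • e0 v := by
    intro h v
    induction v using Finsupp.induction_linear with
    | zero => simp
    | add a b ha hb => rw [map_add, map_add, map_add, ha, hb, smul_add]
    | single x c =>
      rw [prm_single, he0s, he0s, Representation.single_smul, LinearEquiv.apply_symm_apply,
        one_smul]
      rfl
  -- the boundary maps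
  let dd : ∀ k, (X (k + 1) →₀ ℤ) →+ (prm H (X k)).asModule := fun k =>
    ((prm H (X k)).asModuleEquiv.symm.toLinearMap.comp (d k)).toAddMonoidHom
  have hdv : ∀ k z, dd k z = (prm H (X k)).asModuleEquiv.symm (d k z) := fun k z => rfl
  have hdeq : ∀ k h v, d k (prm H (X (k + 1)) h v) = prm H (X k) h (d k v) := by
    intro k h v
    induction v using Finsupp.induction_linear with
    | zero => simp
    | add a b ha hb => rw [map_add, map_add, map_add, map_add, ha, hb]
    | single x c =>
      have h1 : ∀ y : X (k + 1), (Finsupp.single y c : X (k + 1) →₀ ℤ) =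
          c • Finsupp.single y 1 := by
        intro y
        rw [Finsupp.smul_single, smul_eq_mul, mul_one]
      rw [prm_single, h1 (h • x), h1 x, map_smul, map_smul, map_smul, heq]
      rfl
  have hdh : ∀ k h v, dd k (prm H (X (k + 1)) h v) = MonoidAlgebra.single h (1 : ℤ) • dd k v := by
    intro k h v
    rw [hdv, hdv, hdeq, Representation.single_smul, LinearEquiv.apply_symm_apply, one_smul]
    rfl
  refine fp_of_seq n _ (fun k => (prm H (X k)).asModule) (fun k hk => finite_prm (hfin k hk))
    (fun k _ => projective_prm (hfree k)) (linOf _ e0 hε) (fun k => linOf _ (dd k) (hdh k))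
    ?_ ?_ ?_ ?_ ?_
  · intro c
    obtain ⟨c, rfl⟩ := (Representation.trivial ℤ H ℤ).asModuleEquiv.symm.surjective c
    obtain ⟨x⟩ := hne
    exact ⟨(prm H (X 0)).asModuleEquiv.symm (Finsupp.single x c), he0s x c⟩
  · intro _ z
    change e0 (d 0 z) = 0
    have h1 : ∀ z : X 1 →₀ ℤ, e0 (d 0 z) = 0 := by
      intro z
      induction z using Finsupp.induction_linear with
      | zero => rw [map_zero, map_zero]
      | add a b ha hb => rw [map_add, map_add, ha, hb, add_zero]
      | single x c =>
        have h2 : (Finsupp.single x c : X 1 →₀ ℤ) = c • Finsupp.single x 1 := by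
          rw [Finsupp.smul_single, smul_eq_mul, mul_one]
        rw [h2, map_smul, map_zsmul, he0, haug, map_zero, smul_zero]
    exact h1 z
  · intro k _ z
    exact hdd k z
  · intro hn z hz
    have h1 : (Representation.trivial ℤ H ℤ).asModuleEquiv.symm
        (((prm H (X 0)).asModuleEquiv z).sum (fun _ a => a)) = 0 := hz
    rw [LinearEquiv.map_eq_zero_iff] at h1
    obtain ⟨y, hy⟩ := hex0 hn _ h1
    exact ⟨y, hy⟩
  · intro k hk z hz
    obtain ⟨y, hy⟩ := hex k hk _ hz
    exact ⟨y, hy⟩

end Pool.Agent.P8H96.FP
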