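import Pool.Agent.Y72.Ty.Mod

/-!
# Permutation complexes and the property `FP_n`
-/

set_option autoImplicit false

namespace Pool.Agent.P8H96.FP

open Pool.Agent.Y72.Ty

/-- An exact sequence `P_n → ... → P_0 → M → 0` with `P_k`, `k ≤ n`, finitely generated projective
gives `FP_n`. -/
theorem fp_of_seq {R : Type} [Ring R] : ∀ (n : ℕ) (M : Type) [AddCommGroup M] [Module R M]
    (P : ℕ → Type) [∀ k, AddCommGroup (P k)] [∀ k, Module R (P k)]
    (_ : ∀ k, k ≤ n → Module.Finite R (P k)) (_ : ∀ k, k ≤ n → Module.Projective R (P k))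
    (ε : P 0 →ₗ[R] M) (d : ∀ k, P (k + 1) →ₗ[R] P k) (_ : Function.Surjective ε)
    (_ : 0 < n → ∀ x, ε (d 0 x) = 0) (_ : ∀ k, k + 1 < n → ∀ x, d k (d (k + 1) x) = 0)
    (_ : 0 < n → ∀ x, ε x = 0 → ∃ y, d 0 y = x)
    (_ : ∀ k, k + 1 < n → ∀ x, d k x = 0 → ∃ y, d (k + 1) y = x), FP R n M := by
  intro n
  induction n with
  | zero =>
    intro M _ _ P _ _ hf _ ε _ hε _ _ _ _
    have := hf 0 le_rfl
    exact Module.Finite.of_surjective ε hε
  | succ n ih =>
    intro M _ _ P _ _ hf hp ε d hε h0 h1 h2 h3
    refine ⟨P 0, inferInstance, inferInstance, hf 0 (Nat.zero_le _), hp 0 (Nat.zero_le _), ε, hε, ?_⟩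
    let ε' : P 1 →ₗ[R] LinearMap.ker ε :=
      LinearMap.codRestrict _ (d 0) (fun x => by
        rw [LinearMap.mem_ker]; exact h0 (Nat.succ_pos n) x)
    refine ih (LinearMap.ker ε) (fun k => P (k + 1)) (fun k hk => hf (k + 1) (by omega))
      (fun k hk => hp (k + 1) (by omega)) ε' (fun k => d (k + 1)) ?_ ?_ ?_ ?_ ?_
    · rintro ⟨x, hx⟩
      obtain ⟨y, hy⟩ := h2 (Nat.succ_pos n) x (LinearMap.mem_ker.1 hx)
      exact ⟨y, Subtype.ext hy⟩
    · intro hn x
      apply Subtype.ext
      exact h1 0 (by omega) x
    · intro k hk x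
      exact h1 (k + 1) (by omega) x
    · intro hn x hx
      exact h3 0 (by omega) x (congrArg Subtype.val hx)
    · intro k hk x hx
      exact h3 (k + 1) (by omega) x hx

section

variable {H : Type} [Group H]

/-- Additive equivariant maps out of a representation are linear over the group ring. -/
noncomputable def linOf {V : Type} [AddCommGroup V] (ρ : Representation ℤ H V) {W : Type}
    [AddCommGroup W] [Module (MonoidAlgebra ℤ H) W] (f : V →+ W)
    (hf : ∀ h v, f (ρ h v) = MonoidAlgebra.single h (1 : ℤ) • f v) :
    ρ.asModule →ₗ[MonoidAlgebra ℤ H] W where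
  toFun v := f (ρ.asModuleEquiv v)
  map_add' v w := by rw [map_add, map_add]
  map_smul' r v := by
    rw [Representation.asModuleEquiv_map_smul, RingHom.id_apply]
    generalize ρ.asModuleEquiv v = w
    induction r using MonoidAlgebra.induction_on with
    | of g =>
      rw [Representation.asAlgebraHom_of, hf, MonoidAlgebra.of_apply]
    | add a b ha hb =>
      rw [map_add, LinearMap.add_apply, map_add, ha, hb, add_smul]
    | smul c a ha =>
      rw [map_smul, LinearMap.smul_apply, map_zsmul, ha, smul_assoc]

theorem linOf_apply {V : Type} [AddCommGroup V] (ρ : Representation ℤ H V) {W : Type}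
    [AddCommGroup W] [Module (MonoidAlgebra ℤ H) W] (f : V →+ W)
    (hf : ∀ h v, f (ρ h v) = MonoidAlgebra.single h (1 : ℤ) • f v) (v : ρ.asModule) :
    linOf ρ f hf v = f (ρ.asModuleEquiv v) := rfl

variable {X : Type} [MulAction H X]

/-- The permutation representation on the finitely supported functions. -/
noncomputable def prm (H : Type) [Group H] (X : Type) [MulAction H X] :
    Representation ℤ H (X →₀ ℤ) where
  toFun h := Finsupp.lmapDomain ℤ ℤ (fun x => h • x)
  map_one' := by
    ext x
    simp
  map_mul' g h := by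
    ext x
    simp [mul_smul]

theorem prm_single (h : H) (x : X) (c : ℤ) :
    prm H X h (Finsupp.single x c) = Finsupp.single (h • x) c := by
  simp [prm]

theorem prm_apply (h : H) (v : X →₀ ℤ) :
    prm H X h v = Finsupp.mapDomain (fun x => h • x) v := rfl

/-- The class of a point in the set of orbits. -/
def cl (H : Type) [Group H] {X : Type} [MulAction H X] (x : X) :
    MulAction.orbitRel.Quotient H X := Quotient.mk _ x

theorem exists_g (x : X) : ∃ g : H, g • (Quotient.out (cl H x) : X) = x := by
  have h1 : (Quotient.mk (MulAction.orbitRel H X) (Quotient.out (cl H x)) :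
      MulAction.orbitRel.Quotient H X) = cl H x := Quotient.out_eq _
  have h2 : MulAction.orbitRel H X x (Quotient.out (cl H x)) :=
    (MulAction.orbitRel H X).symm (Quotient.exact h1)
  exact h2

/-- The group element which moves the representative of the orbit of `x` to `x`. -/
noncomputable def gg (H : Type) [Group H] {X : Type} [MulAction H X] (x : X) : H :=
  Classical.choose (exists_g (H := H) x)

theorem gg_spec (x : X) : gg H x • (Quotient.out (cl H x) : X) = x :=
  Classical.choose_spec (exists_g (H := H) x)

theorem cl_smul (h : H) (x : X) : cl H (h • x) = cl H x := by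
  apply Quotient.sound
  exact ⟨h, rfl⟩

theorem gg_smul (hfree : ∀ (h : H) (x : X), h • x = x → h = 1) (h : H) (x : X) :
    gg H (h • x) = h * gg H x := by
  have h1 := gg_spec (H := H) (h • x)
  rw [cl_smul] at h1
  have h2 := gg_spec (H := H) x
  have h3 : ((h * gg H x)⁻¹ * gg H (h • x)) • (Quotient.out (cl H x) : X) =
      Quotient.out (cl H x) := by
    rw [mul_smul, h1, inv_smul_eq_iff, mul_smul, h2]
  have h4 := hfree _ _ h3
  exact (inv_mul_eq_one.1 h4).symm

/-- The map to the free module on the orbits. -/
noncomputable def toFree (H : Type) [Group H] (X : Type) [MulAction H X] :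
    (X →₀ ℤ) →+ (MulAction.orbitRel.Quotient H X →₀ MonoidAlgebra ℤ H) :=
  Finsupp.liftAddHom (fun x =>
    (Finsupp.singleAddHom (cl H x)).comp (MonoidAlgebra.singleAddHom (gg H x)))

theorem toFree_single (x : X) (c : ℤ) :
    toFree H X (Finsupp.single x c) =
      Finsupp.single (cl H x) (MonoidAlgebra.single (gg H x) c) := by
  unfold toFree
  rw [Finsupp.liftAddHom_apply_single]
  rfl

theorem toFree_smul (hfree : ∀ (h : H) (x : X), h • x = x → h = 1) (h : H) (v : X →₀ ℤ) :
    toFree H X (prm H X h v) = MonoidAlgebra.single h (1 : ℤ) • toFree H X v := by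
  induction v using Finsupp.induction_linear with
  | zero => simp
  | add a b ha hb => rw [map_add, map_add, map_add, ha, hb, smul_add]
  | single x c =>
    rw [prm_single, toFree_single, toFree_single, cl_smul, gg_smul hfree, Finsupp.smul_single,
      smul_eq_mul, MonoidAlgebra.single_mul_single, one_mul]

/-- The map from the free module on the orbits. -/
noncomputable def fromFree (H : Type) [Group H] (X : Type) [MulAction H X] :
    (MulAction.orbitRel.Quotient H X →₀ MonoidAlgebra ℤ H) →ₗ[MonoidAlgebra ℤ H]
      (prm H X).asModule :=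
  Finsupp.linearCombination (MonoidAlgebra ℤ H)
    (fun ω => (prm H X).asModuleEquiv.symm (Finsupp.single (Quotient.out ω) 1))

theorem fromFree_single (x : X) (c : ℤ) :
    fromFree H X (Finsupp.single (cl H x) (MonoidAlgebra.single (gg H x) c)) =
      (prm H X).asModuleEquiv.symm (Finsupp.single x c) := by
  unfold fromFree
  rw [Finsupp.linearCombination_single, Representation.single_smul]
  rw [LinearEquiv.apply_symm_apply, prm_single, gg_spec]
  change c • (prm H X).asModuleEquiv.symm (Finsupp.single x 1) = _
  rw [← map_smul, Finsupp.smul_single, smul_eq_mul, mul_one]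

theorem projective_prm (hfree : ∀ (h : H) (x : X), h • x = x → h = 1) :
    Module.Projective (MonoidAlgebra ℤ H) (prm H X).asModule := by
  refine Module.Projective.of_split (linOf (prm H X) (toFree H X) (toFree_smul hfree))
    (fromFree H X) ?_
  apply LinearMap.ext
  intro v
  obtain ⟨w, rfl⟩ := (prm H X).asModuleEquiv.symm.surjective v
  rw [LinearMap.comp_apply, linOf_apply, LinearEquiv.apply_symm_apply, LinearMap.id_apply]
  induction w using Finsupp.induction_linear with
  | zero => simp
  | add a b ha hb => rw [map_add, map_add, map_add, ha, hb]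
  | single x c => rw [toFree_single, fromFree_single]

theorem finite_prm (hfin : ∃ s : Set X, s.Finite ∧ ∀ x, ∃ y ∈ s, ∃ h : H, h • y = x) :
    Module.Finite (MonoidAlgebra ℤ H) (prm H X).asModule := by
  classical
  obtain ⟨s, hs, hx⟩ := hfin
  refine ⟨⟨(hs.toFinset.image fun y => (prm H X).asModuleEquiv.symm (Finsupp.single y 1)), ?_⟩⟩
  rw [eq_top_iff]
  intro v _
  obtain ⟨w, rfl⟩ := (prm H X).asModuleEquiv.symm.surjective v
  induction w using Finsupp.induction_linear with
  | zero => rw [map_zero]; exact Submodule.zero_mem _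
  | add a b ha hb => rw [map_add]; exact Submodule.add_mem _ (ha trivial) (hb trivial)
  | single x c =>
    obtain ⟨y, hy, h, rfl⟩ := hx x
    have h1 : (prm H X).asModuleEquiv.symm (Finsupp.single (h • y) c) =
        MonoidAlgebra.single h c • (prm H X).asModuleEquiv.symm (Finsupp.single y 1) := by
      rw [Representation.single_smul, LinearEquiv.apply_symm_apply, prm_single]
      change _ = c • (prm H X).asModuleEquiv.symm (Finsupp.single (h • y) 1)
      rw [← map_smul, Finsupp.smul_single, smul_eq_mul, mul_one]
    rw [h1]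
    apply Submodule.smul_mem
    apply Submodule.subset_span
    rw [Finset.coe_image]
    exact ⟨y, by simpa using hy, rfl⟩

end

end Pool.Agent.P8H96.FP
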