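import Pool.Agent.Y72.Ty.Mod

/-!
# Retracts and the property `FP_n` (semilinear form)
-/

set_option autoImplicit false

namespace Pool.Agent.P8H96.FP

open Pool.Agent.Y72.Ty

/-- `M'` of type `FP_n` over `S`, `a : M → M'` and `b : M' → M` semilinear along `iota : R → S` and
`rho : S → R` with `rho ∘ iota = id`, and `id - b ∘ a` factors through a finitely generated
projective module: then `M` is of type `FP_n`. -/
theorem fp_retract_gen {R S : Type} [Ring R] [Ring S] (iota : R →+* S) (rho : S →+* R)
    (hri : ∀ r, rho (iota r) = r) : ∀ (n : ℕ) (M M' T : Type) [AddCommGroup M] [Module R M]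
    [AddCommGroup M'] [Module S M'] [AddCommGroup T] [Module R T] (_ : Module.Finite R T)
    (_ : Module.Projective R T) (a : M →+ M') (b : M' →+ M) (_ : ∀ r m, a (r • m) = iota r • a m)
    (_ : ∀ s m, b (s • m) = rho s • b m) (s : M →ₗ[R] T) (t : T →ₗ[R] M)
    (_ : ∀ m, m - b (a m) = t (s m)), FP S n M' → FP R n M := by
  have fin0 : ∀ (M M' T : Type) [AddCommGroup M] [Module R M]
      [AddCommGroup M'] [Module S M'] [AddCommGroup T] [Module R T] (_ : Module.Finite R T)
      (a : M →+ M') (b : M' →+ M)
      (_ : ∀ s m, b (s • m) = rho s • b m) (s : M →ₗ[R] T) (t : T →ₗ[R] M)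
      (_ : ∀ m, m - b (a m) = t (s m)), Module.Finite S M' → Module.Finite R M := by
    intro M M' T _ _ _ _ _ _ hT a b hb s t hst hM'
    obtain ⟨k, g, hg⟩ := Module.Finite.exists_fin' S M'
    -- the images of the generators
    let y : Fin k → M := fun j => b (g (Pi.single j 1))
    let F : (Fin k → R) × T →ₗ[R] M :=
      LinearMap.coprod (Fintype.linearCombination R y) t
    have hF : Function.Surjective F := by
      intro m
      obtain ⟨c, hc⟩ := hg (a m)
      refine ⟨(fun j => rho (c j), s m), ?_⟩
      change Fintype.linearCombination R y (fun j => rho (c j)) + t (s m) = m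
      rw [← hst m, Fintype.linearCombination_apply]
      have h1 : b (a m) = ∑ j, rho (c j) • y j := by
        have h2 : c = ∑ j, c j • (Pi.single j (1 : S) : Fin k → S) := by
          funext l
          rw [Finset.sum_apply]
          simp [Pi.single_apply]
        have h3 : g c = ∑ j, c j • g (Pi.single j 1) := by
          conv_lhs => rw [h2]
          rw [map_sum]
          exact Finset.sum_congr rfl (fun j _ => by rw [map_smul])
        rw [← hc, h3, map_sum]
        exact Finset.sum_congr rfl (fun j _ => by rw [hb])
      rw [h1]
      abel
    exact Module.Finite.of_surjective F hF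
  intro n
  induction n with
  | zero =>
    intro M M' T _ _ _ _ _ _ hT _ a b _ hb s t hst hM'
    exact fin0 M M' T hT a b hb s t hst hM'
  | succ n ih =>
    intro M M' T _ _ _ _ _ _ hT hTp a b ha hb s t hst hM'
    have hfin : Module.Finite R M :=
      fin0 M M' T hT a b hb s t hst (FP.mono (Nat.zero_le (n + 1)) M' hM')
    obtain ⟨Q', i1, i2, hQ1, hQ2, f', hf', hK'⟩ := hM'
    obtain ⟨k, p, hp⟩ := Module.Finite.exists_fin' R M
    -- lift of `a`
    choose y hy using fun j : Fin k => hf' (a (p (Pi.single j 1)))
    let a' : (Fin k → R) →+ Q' :=
      { toFun := fun c => ∑ j, iota (c j) • y j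
        map_zero' := by simp
        map_add' := by
          intro c c'
          simp [add_smul, Finset.sum_add_distrib] }
    have ha' : ∀ r c, a' (r • c) = iota r • a' c := by
      intro r c
      change ∑ j, iota ((r • c) j) • y j = iota r • ∑ j, iota (c j) • y j
      rw [Finset.smul_sum]
      exact Finset.sum_congr rfl (fun j _ => by
        rw [Pi.smul_apply, smul_eq_mul, map_mul, mul_smul])
    have hfa : ∀ c, f' (a' c) = a (p c) := by
      intro c
      have h2 : c = ∑ j, c j • (Pi.single j (1 : R) : Fin k → R) := by
        funext l
        rw [Finset.sum_apply]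
        simp [Pi.single_apply]
      have h3 : p c = ∑ j, c j • p (Pi.single j 1) := by
        conv_lhs => rw [h2]
        rw [map_sum]
        exact Finset.sum_congr rfl (fun j _ => by rw [map_smul])
      rw [h3, map_sum]
      change f' (∑ j, iota (c j) • y j) = _
      rw [map_sum]
      exact Finset.sum_congr rfl (fun j _ => by rw [map_smul, hy, ha])
    -- lift of `b`
    obtain ⟨b', hb', hpb⟩ : ∃ b' : Q' →+ (Fin k → R), (∀ s c, b' (s • c) = rho s • b' c) ∧
        ∀ c, p (b' c) = b (f' c) := by
      let m1 : Module S (Fin k → R) := Module.compHom (Fin k → R) rho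
      let m2 : Module S M := Module.compHom M rho
      let pS : (Fin k → R) →ₗ[S] M :=
        { toFun := p
          map_add' := map_add p
          map_smul' := fun s x => (map_smul p (rho s) x : _) }
      let bS : Q' →ₗ[S] M :=
        { toFun := fun x => b (f' x)
          map_add' := by intro x y; simp
          map_smul' := by
            intro s x
            change b (f' (s • x)) = rho s • b (f' x)
            rw [map_smul, hb] }
      obtain ⟨l, hl⟩ := Module.projective_lifting_property pS bS hp
      refine ⟨l.toAddMonoidHom, fun s c => ?_, fun c => ?_⟩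
      · exact map_smul l s c
      · exact congrArg (fun z : Q' →ₗ[S] M => z c) hl
    obtain ⟨t', ht'⟩ := Module.projective_lifting_property p t hp
    have hpt : ∀ x, p (t' x) = t x := fun x => congrArg (fun z : T →ₗ[R] M => z x) ht'
    -- the map `id - b' a' - t' s p`
    let g0 : (Fin k → R) →ₗ[R] (Fin k → R) :=
      { toFun := fun x => x - b' (a' x) - t' (s (p x))
        map_add' := by
          intro x y
          simp only [map_add]
          abel
        map_smul' := by
          intro r x
          simp only [ha', hb', hri, map_smul, RingHom.id_apply]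
          rw [smul_sub, smul_sub] }
    have hg0 : ∀ x, g0 x ∈ LinearMap.ker p := by
      intro x
      rw [LinearMap.mem_ker]
      change p (x - b' (a' x) - t' (s (p x))) = 0
      rw [map_sub, map_sub, hpb, hpt, hfa, ← hst (p x)]
      abel
    have hfr : Module.Finite R (Fin k → R) := Module.Finite.of_basis (Pi.basisFun R (Fin k))
    have hpr : Module.Projective R (Fin k → R) := Module.Projective.of_basis (Pi.basisFun R (Fin k))
    refine ⟨Fin k → R, inferInstance, inferInstance, hfr, hpr, p, hp, ?_⟩
    let g : (Fin k → R) →ₗ[R] LinearMap.ker p := LinearMap.codRestrict _ g0 hg0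
    let aK : LinearMap.ker p →+ LinearMap.ker f' :=
      { toFun := fun x => ⟨a' x, by
          rw [LinearMap.mem_ker, hfa, LinearMap.mem_ker.1 x.2, map_zero]⟩
        map_zero' := by
          apply Subtype.ext
          simp
        map_add' := by
          intro x y
          apply Subtype.ext
          simp }
    let bK : LinearMap.ker f' →+ LinearMap.ker p :=
      { toFun := fun x => ⟨b' x, by
          rw [LinearMap.mem_ker, hpb, LinearMap.mem_ker.1 x.2, map_zero]⟩
        map_zero' := by
          apply Subtype.ext
          simp
        map_add' := by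
          intro x y
          apply Subtype.ext
          simp }
    refine ih (LinearMap.ker p) (LinearMap.ker f') (Fin k → R) hfr hpr aK bK
      ?_ ?_ (LinearMap.ker p).subtype g ?_ hK'
    · intro r m
      apply Subtype.ext
      exact ha' r m
    · intro s m
      apply Subtype.ext
      exact hb' s m
    · intro m
      apply Subtype.ext
      change (m : Fin k → R) - b' (a' m) = m - b' (a' m) - t' (s (p m))
      rw [LinearMap.mem_ker.1 m.2, map_zero, map_zero, sub_zero]

end Pool.Agent.P8H96.FP
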